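import Mathlib
import Pool.Agent.Lib.MP_9a581e_an.Defs
import Pool.Agent.Lib.MP_9a581e_an.Ex85
import Pool.Agent.Lib.MP_9a581e_an.Main81

set_option autoImplicit false

namespace Pool.Agent.Results.MP_9a581e_an.NotRecoverablePrimitive

open MeasureTheory Pool.Agent.Lib.MP_9a581e_an

/-- There are non-discrete Burger-Mozes groups U(F₁), U(F₂) on the same tree, with F₁, F₂
primitive and not 2-transitive, whose reduced group C*-algebras are star-isomorphic (by a
star-isomorphism of the ambient algebras of bounded operators), while F₁ and F₂ are not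
permutation isomorphic and U(F₁), U(F₂) are not isomorphic even as abstract groups. -/
theorem result :
    ∃ (d : ℕ) (T : LegalTree d) (F₁ F₂ : Subgroup (Equiv.Perm (Fin d)))
      (μ₁ : Measure (U T F₁)) (μ₂ : Measure (U T F₂))
      (_ : μ₁.IsHaarMeasure) (_ : μ₂.IsHaarMeasure),
      3 ≤ d ∧ ¬ DiscreteTopology (U T F₁) ∧ ¬ DiscreteTopology (U T F₂) ∧
      MulAction.IsPreprimitive F₁ (Fin d) ∧ MulAction.IsPreprimitive F₂ (Fin d) ∧
      ¬ MulAction.IsMultiplyPretransitive F₁ (Fin d) 2 ∧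
      ¬ MulAction.IsMultiplyPretransitive F₂ (Fin d) 2 ∧
      CstarRedIso μ₁ μ₂ ∧ ¬ PermIso F₁ F₂ ∧ IsEmpty (U T F₁ ≃* U T F₂) := by
  obtain ⟨F₁, F₂, -, p1, p2, n1, n2, h12, h21, hns, hp, hT⟩ := Ex85.example16
  obtain ⟨T⟩ := Ex85.exists_tree 16
  have := locallyCompact T F₁
  have := locallyCompact T F₂
  exact ⟨16, T, F₁, F₂, Measure.haar, Measure.haar, inferInstance, inferInstance, by norm_num,
    (hT T T).1, (hT T T).2.1, p1, p2, n1, n2, Main81.main T T _ _ h12 h21 hns, hp, (hT T T).2.2⟩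

end Pool.Agent.Results.MP_9a581e_an.NotRecoverablePrimitive
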