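import Mathlib
import Pool.Agent.Lib.MP_9a581e_an.Defs
import Pool.Agent.Lib.MP_9a581e_an.Main81

set_option autoImplicit false

namespace Pool.Agent.Results.MP_9a581e_an.TwoClosure

open MeasureTheory Pool.Agent.Lib.MP_9a581e_an

/-- If F₁ and F₂ have the same orbits on ordered pairs of colours and U(F₁) is not discrete, the
reduced group C*-algebras of U(F₁) and U(F₂) are star-isomorphic (by a star-isomorphism of the
ambient algebras of bounded operators). -/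
theorem result (d : ℕ) (T₁ T₂ : LegalTree d) (F₁ F₂ : Subgroup (Equiv.Perm (Fin d)))
    (μ₁ : Measure (U T₁ F₁)) (μ₂ : Measure (U T₂ F₂)) [μ₁.IsHaarMeasure] [μ₂.IsHaarMeasure]
    (hF : ∀ i j k l : Fin d, (∃ σ ∈ F₁, σ i = k ∧ σ j = l) ↔ ∃ τ ∈ F₂, τ i = k ∧ τ j = l)
    (hd : ¬ DiscreteTopology (U T₁ F₁)) : CstarRedIso μ₁ μ₂ :=
  Main81.main T₁ T₂ μ₁ μ₂ (fun σ hσ i j => (hF i j _ _).1 ⟨σ, hσ, rfl, rfl⟩)
    (fun σ hσ i j => (hF i j _ _).2 ⟨σ, hσ, rfl, rfl⟩) (Main81.nonsemi T₁ hd)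

end Pool.Agent.Results.MP_9a581e_an.TwoClosure
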